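import Pool.Agent.MP_e16cda_ag.Mg.Finite

set_option autoImplicit false

namespace Pool.Agent.Results.MP_e16cda_ag.FiniteOrderSuffices

theorem result : ∀ g : ℕ, ∃ d : ℕ, Pool.Agent.MP_e16cda_ag.Determines g d :=
  Pool.Agent.MP_e16cda_ag.exists_order

end Pool.Agent.Results.MP_e16cda_ag.FiniteOrderSuffices
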