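import Pool.Agent.MP_e16cda_ag.Counter

set_option autoImplicit false

namespace Pool.Agent.Results.MP_e16cda_ag.OrderThreeFails

theorem result : ∀ g : ℕ, 1 ≤ g → ¬ Pool.Agent.MP_e16cda_ag.Determines g 3 :=
  Pool.Agent.MP_e16cda_ag.not_determines_three

end Pool.Agent.Results.MP_e16cda_ag.OrderThreeFails
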